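import Pool.Agent.Helper61.P3.St2

/-!
# Project P3, module LOW: energies and shifts of the scale
-/

set_option autoImplicit false

open MeasureTheory Set Filter Topology
open scoped ENNReal RealInnerProductSpace

namespace Pool.Agent.Helper6.P3

open Pool.Agent.Helper61.P3
open Pool.Agent.Helper20.RG
open Pool.Agent.Helper20.EQ
open Pool.Agent.Helper68.LM (Pl BB Bd Av HL ft fm DQ)
open Pool.Agent.Helper68.EP (elt GapP)

/-! ### Joint measurability -/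

private theorem jm (hGR : StGR) {κ : ℤ → ℝ} (hκ : Gr κ) (a : ℤ) {g : ℝ → ℝ → ℝ}
    (hg : Measurable (Function.uncurry g)) :
    Measurable (fun q : ℝ × ℝ => Ed κ a (g q.1) q.2) := by
  have hl : Measurable (lft κ a) := (hGR.1 κ hκ a 0).2.2.2.1
  set S : Set ((ℝ × ℝ) × ℝ) := {q | lft κ a q.1.2 ≤ q.2 ∧ q.2 < lft κ a q.1.2 + (2 : ℝ) ^ a} with hS
  have hl' : Measurable (fun q : (ℝ × ℝ) × ℝ => lft κ a q.1.2) :=
    hl.comp (measurable_snd.comp measurable_fst)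
  have hSm : MeasurableSet S :=
    (measurableSet_le hl' measurable_snd).inter (measurableSet_lt measurable_snd (hl'.add_const _))
  have hgm : Measurable (fun p : (ℝ × ℝ) × ℝ => g p.1.1 p.2) :=
    hg.comp ((measurable_fst.comp measurable_fst).prodMk measurable_snd)
  have hf : StronglyMeasurable (Function.uncurry (fun (q : ℝ × ℝ) (r : ℝ) =>
      S.indicator (fun p : (ℝ × ℝ) × ℝ => g p.1.1 p.2) (q, r))) := by
    apply Measurable.stronglyMeasurable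
    exact hgm.indicator hSm
  have h1 := (hf.integral_prod_right (ν := (volume : Measure ℝ))).measurable
  have h2 : (fun q : ℝ × ℝ => Ed κ a (g q.1) q.2) = fun q : ℝ × ℝ => (2 : ℝ) ^ (-a) *
      ∫ r, S.indicator (fun p : (ℝ × ℝ) × ℝ => g p.1.1 p.2) (q, r) := by
    ext q
    unfold Ed Ia
    rw [← integral_indicator measurableSet_Ico]
    congr 1
  rw [h2]
  exact h1.const_mul _

private theorem Tc_meas : Measurable Tc := by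
  unfold Tc
  exact measurable_id.div (measurable_const.add measurable_id)

private theorem en_meas (hGR : StGR) {κ : ℤ → ℝ} (hκ : Gr κ) (Γ : ℝ) (a ℓ : ℤ) {g : ℝ → ℝ → ℝ}
    (hg : Measurable (Function.uncurry g)) :
    Measurable (fun q : ℝ × ℝ => en κ Γ a ℓ (g q.1) q.2) := by
  unfold en
  have h1 := jm hGR hκ ℓ hg
  have h2 := jm hGR hκ a hg
  have h3 : Measurable (Function.uncurry (fun y r => Tc (Γ * Ed κ a (g y) r))) :=
    Tc_meas.comp (h2.const_mul Γ)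
  exact (Tc_meas.comp (h1.const_mul Γ)).sub (jm hGR hκ ℓ h3)

private theorem lnf_meas (hPT : StPT) (s : ℝ) {b : Pl → ℝ} (hb : Measurable b) :
    Measurable (Function.uncurry (lnf s b)) := by
  have hc := hPT.2.2.2.2.1
  have h1 : Measurable (fun q : ℝ × ℝ => pt q.1 (q.2 + s * q.1)) :=
    hc.measurable.comp (measurable_fst.prodMk (measurable_snd.add (measurable_fst.const_mul s)))
  exact hb.comp h1

private theorem fib (hPT : StPT) (s : ℝ) (f : Pl → ℝ≥0∞) (hf : Measurable f) :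
    ∫⁻ y₀ : ℝ, ∫⁻ ρ : ℝ, f (pt y₀ (ρ + s * y₀)) = ∫⁻ x, f x := by
  rw [hPT.2.2.2.2.2.1 f hf]
  apply lintegral_congr
  intro y₀
  exact lintegral_add_right_eq_self (fun ρ => f (pt y₀ ρ)) (s * y₀)

/-! ### The line -/

private theorem Ed_one (hGR : StGR) {κ : ℤ → ℝ} (hκ : Gr κ) (a : ℤ) (t : ℝ) :
    Ed κ a (fun _ => 1) t = 1 := by
  obtain ⟨-, -, hv, -⟩ := hGR.1 κ hκ a t
  unfold Ed
  rw [setIntegral_const, Measure.real, hv, ENNReal.toReal_ofReal (by positivity), smul_eq_mul, mul_one,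
    ← zpow_add₀ (by norm_num), neg_add_cancel, zpow_zero]

private theorem line_A (hGA : StGA) (hGE : StGE) {κ : ℤ → ℝ} (hκ : Gr κ) {Γ : ℝ} (hΓ : 0 ≤ Γ)
    {a ℓ : ℤ} (hal : a ≤ ℓ) {β β' : ℝ → ℝ} (hβ : Measurable β) (hβ1 : ∀ t, 0 ≤ β t ∧ β t ≤ 1)
    (hβ' : Measurable β') (hβ'1 : ∀ t, 0 ≤ β' t ∧ β' t ≤ 1) :
    ∫⁻ t, ENNReal.ofReal (en κ Γ a ℓ β t) ≤ (∫⁻ t, ENNReal.ofReal (en κ Γ a ℓ β' t)) +
      ENNReal.ofReal (2 * Γ) * ∫⁻ t, ENNReal.ofReal |β t - β' t| := by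
  obtain ⟨-, -, -, -, h5⟩ := hGE κ hκ β Γ a ℓ hβ hβ1 hΓ hal
  have h6 := h5 β' hβ' hβ'1
  obtain ⟨m', -⟩ := hGE κ hκ β' Γ a ℓ hβ' hβ'1 hΓ hal
  have h7 := (hGA κ hκ (fun r => |β r - β' r|) 1 ℓ (hβ.sub hβ').abs (fun t => by
    rw [abs_abs, abs_le]
    have := hβ1 t
    have := hβ'1 t
    constructor <;> linarith)).2.2.2.2.2.2.2.2.2
  simp only [abs_abs] at h7
  have h8 : ∀ t, ENNReal.ofReal (en κ Γ a ℓ β t) ≤ ENNReal.ofReal (en κ Γ a ℓ β' t) +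
      ENNReal.ofReal (2 * Γ) * ENNReal.ofReal |Ed κ ℓ (fun r => |β r - β' r|) t| := by
    intro t
    have h9 := (abs_le.1 (h6 t)).2
    rw [← ENNReal.ofReal_mul (by positivity)]
    refine le_trans (ENNReal.ofReal_le_ofReal ?_) ENNReal.ofReal_add_le
    have h10 := mul_le_mul_of_nonneg_left (le_abs_self (Ed κ ℓ (fun r => |β r - β' r|) t))
      (by positivity : 0 ≤ 2 * Γ)
    linarith
  refine (lintegral_mono h8).trans ?_
  rw [lintegral_add_left m'.ennreal_ofReal, lintegral_const_mul' _ _ ENNReal.ofReal_ne_top]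
  gcongr

private theorem line_C (hGA : StGA) (hGE : StGE) {κ : ℤ → ℝ} (hκ : Gr κ) {Γ : ℝ} (hΓ : 0 ≤ Γ)
    {a ℓ : ℤ} (hal : a ≤ ℓ) {β : ℝ → ℝ} (hβ : Measurable β) (hβ1 : ∀ t, 0 ≤ β t ∧ β t ≤ 1) :
    ∫⁻ t, ENNReal.ofReal (en κ Γ a ℓ β t) ≤ ENNReal.ofReal Γ * ∫⁻ t, ENNReal.ofReal (β t) := by
  obtain ⟨-, h2, -⟩ := hGE κ hκ β Γ a ℓ hβ hβ1 hΓ hal
  have h7 := (hGA κ hκ β 1 ℓ hβ (fun t => by
    rw [abs_le]
    have := hβ1 t
    constructor <;> linarith)).2.2.2.2.2.2.2.2.2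
  have h8 : ∀ t, ENNReal.ofReal (en κ Γ a ℓ β t) ≤
      ENNReal.ofReal Γ * ENNReal.ofReal |Ed κ ℓ β t| := by
    intro t
    rw [← ENNReal.ofReal_mul hΓ]
    exact ENNReal.ofReal_le_ofReal ((h2 t).2.1.trans (mul_le_mul_of_nonneg_left (le_abs_self _) hΓ))
  refine (lintegral_mono h8).trans ?_
  rw [lintegral_const_mul' _ _ ENNReal.ofReal_ne_top]
  refine mul_le_mul_right (h7.trans ?_) _
  apply lintegral_mono
  intro t
  simp only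
  rw [abs_of_nonneg (hβ1 t).1]

private theorem line_B (hGR : StGR) (hGA : StGA) (hGE : StGE) {κ : ℤ → ℝ} (hκ : Gr κ) {Γ : ℝ}
    (hΓ : 0 ≤ Γ) {a a' ℓ : ℤ} (h1 : a ≤ a') (h2 : a' ≤ ℓ) {β : ℝ → ℝ} (hβ : Measurable β)
    (hβ1 : ∀ t, 0 ≤ β t ∧ β t ≤ 1) (hfin : ∫⁻ t, ENNReal.ofReal (β t) ≠ ∞) :
    ∫⁻ t, ENNReal.ofReal (en κ Γ a ℓ β t) =
      (∫⁻ t, ENNReal.ofReal (en κ Γ a' ℓ β t)) + ∫⁻ t, ENNReal.ofReal (en κ Γ a a' β t) := by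
  obtain ⟨-, -, -, h4, -⟩ := hGE κ hκ β Γ a ℓ hβ hβ1 hΓ (h1.trans h2)
  obtain ⟨m1, n1, -⟩ := hGE κ hκ β Γ a' ℓ hβ hβ1 hΓ h2
  obtain ⟨m2, n2, -⟩ := hGE κ hκ β Γ a a' hβ hβ1 hΓ h1
  set F : ℝ → ℝ := en κ Γ a a' β with hF
  have hF1 : ∀ t, |F t| ≤ 1 := by
    intro t
    rw [abs_of_nonneg (n2 t).1]
    exact (n2 t).2.2
  obtain ⟨q1, -, -, q4, -, -, -, -, q9, -⟩ := hGA κ hκ F 1 ℓ m2 hF1
  have hE0 : ∀ t, 0 ≤ Ed κ ℓ F t := q4 (fun t => (n2 t).1)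
  have e1 : ∀ t, ENNReal.ofReal (en κ Γ a ℓ β t) =
      ENNReal.ofReal (en κ Γ a' ℓ β t) + ENNReal.ofReal (Ed κ ℓ F t) := by
    intro t
    rw [(h4 a' h1 h2 t).2, ENNReal.ofReal_add (n1 t).1 (hE0 t)]
  rw [lintegral_congr e1, lintegral_add_left m1.ennreal_ofReal]
  congr 1
  have hFi : Integrable F := by
    refine ⟨m2.aestronglyMeasurable, ?_⟩
    rw [hasFiniteIntegral_iff_ofReal (Eventually.of_forall (fun t => (n2 t).1))]
    refine (line_C hGA hGE hκ hΓ h1 hβ hβ1).trans_lt ?_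
    exact (ENNReal.mul_ne_top ENNReal.ofReal_ne_top hfin).lt_top
  obtain ⟨r1, r2⟩ := q9 hFi (fun _ => 1) 1 measurable_const (fun _ => by simp)
  have r3 : ∫ t, Ed κ ℓ F t = ∫ t, F t := by
    have e2 : ∀ t, F t * Ed κ ℓ (fun _ => (1 : ℝ)) t = F t := by
      intro t
      rw [Ed_one hGR hκ, mul_one]
    simpa only [mul_one, e2] using r2
  rw [← ofReal_integral_eq_lintegral_ofReal r1 (Eventually.of_forall hE0),
    ← ofReal_integral_eq_lintegral_ofReal hFi (Eventually.of_forall (fun t => (n2 t).1)), r3]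

/-! ### The plane -/

private theorem pl_A (hPT : StPT) (hGA : StGA) (hGE : StGE) (s : ℝ) {κ : ℤ → ℝ}
    (hκ : Gr κ) {Γ : ℝ} (hΓ : 0 ≤ Γ) {a ℓ : ℤ} (hal : a ≤ ℓ) {b b' : Pl → ℝ} (hb : Measurable b)
    (hb1 : ∀ x, 0 ≤ b x ∧ b x ≤ 1) (hb' : Measurable b') (hb'1 : ∀ x, 0 ≤ b' x ∧ b' x ≤ 1) :
    EN s κ Γ a ℓ b ≤ EN s κ Γ a ℓ b' + ENNReal.ofReal (2 * Γ) * ∫⁻ x, ENNReal.ofReal |b x - b' x| := by
  unfold EN
  have hm := lnf_meas hPT s hb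
  have hm' := lnf_meas hPT s hb'
  have h1 : ∀ y₀ : ℝ, ∫⁻ ρ, ENNReal.ofReal (en κ Γ a ℓ (lnf s b y₀) ρ) ≤
      (∫⁻ ρ, ENNReal.ofReal (en κ Γ a ℓ (lnf s b' y₀) ρ)) +
      ENNReal.ofReal (2 * Γ) * ∫⁻ ρ, ENNReal.ofReal |lnf s b y₀ ρ - lnf s b' y₀ ρ| := by
    intro y₀
    exact line_A hGA hGE hκ hΓ hal (hm.comp (measurable_const.prodMk measurable_id)) (fun t => hb1 _)
      (hm'.comp (measurable_const.prodMk measurable_id)) (fun t => hb'1 _)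
  refine (lintegral_mono h1).trans ?_
  have h2 : Measurable (fun y₀ : ℝ => ENNReal.ofReal (2 * Γ) *
      ∫⁻ ρ, ENNReal.ofReal |lnf s b y₀ ρ - lnf s b' y₀ ρ|) := by
    apply Measurable.const_mul
    have h3 : Measurable (Function.uncurry (fun y₀ ρ => ENNReal.ofReal |lnf s b y₀ ρ - lnf s b' y₀ ρ|)) :=
      (hm.sub hm').abs.ennreal_ofReal
    exact h3.lintegral_prod_right
  rw [lintegral_add_right _ h2, lintegral_const_mul' _ _ ENNReal.ofReal_ne_top]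
  have h4 := fib hPT s (fun x => ENNReal.ofReal |b x - b' x|) (hb.sub hb').abs.ennreal_ofReal
  unfold lnf
  rw [h4]

private theorem pl_C (hPT : StPT) (hGA : StGA) (hGE : StGE) (s : ℝ) {κ : ℤ → ℝ}
    (hκ : Gr κ) {Γ : ℝ} (hΓ : 0 ≤ Γ) {a ℓ : ℤ} (hal : a ≤ ℓ) {b : Pl → ℝ} (hb : Measurable b)
    (hb1 : ∀ x, 0 ≤ b x ∧ b x ≤ 1) :
    EN s κ Γ a ℓ b ≤ ENNReal.ofReal Γ * ∫⁻ x, ENNReal.ofReal (b x) := by
  unfold EN
  have hm := lnf_meas hPT s hb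
  have h1 : ∀ y₀ : ℝ, ∫⁻ ρ, ENNReal.ofReal (en κ Γ a ℓ (lnf s b y₀) ρ) ≤
      ENNReal.ofReal Γ * ∫⁻ ρ, ENNReal.ofReal (lnf s b y₀ ρ) := by
    intro y₀
    exact line_C hGA hGE hκ hΓ hal (hm.comp (measurable_const.prodMk measurable_id)) (fun t => hb1 _)
  refine (lintegral_mono h1).trans ?_
  rw [lintegral_const_mul' _ _ ENNReal.ofReal_ne_top]
  have h4 := fib hPT s (fun x => ENNReal.ofReal (b x)) hb.ennreal_ofReal
  unfold lnf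
  rw [h4]

private theorem pl_B (hPT : StPT) (hGR : StGR) (hGA : StGA) (hGE : StGE) (s : ℝ) {κ : ℤ → ℝ}
    (hκ : Gr κ) {Γ : ℝ} (hΓ : 0 ≤ Γ) {a a' ℓ : ℤ} (h1 : a ≤ a') (h2 : a' ≤ ℓ) {b : Pl → ℝ}
    (hb : Measurable b) (hb1 : ∀ x, 0 ≤ b x ∧ b x ≤ 1) (hfin : ∫⁻ x, ENNReal.ofReal (b x) ≠ ∞) :
    EN s κ Γ a ℓ b = EN s κ Γ a' ℓ b + EN s κ Γ a a' b := by
  unfold EN
  have hm := lnf_meas hPT s hb
  have h3 : Measurable (fun y₀ : ℝ => ∫⁻ ρ, ENNReal.ofReal (lnf s b y₀ ρ)) :=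
    (Measurable.ennreal_ofReal hm : Measurable (Function.uncurry
      (fun y₀ ρ => ENNReal.ofReal (lnf s b y₀ ρ)))).lintegral_prod_right
  have h4 : ∫⁻ y₀ : ℝ, ∫⁻ ρ, ENNReal.ofReal (lnf s b y₀ ρ) ≠ ∞ := by
    have h5 := fib hPT s (fun x => ENNReal.ofReal (b x)) hb.ennreal_ofReal
    unfold lnf
    rw [h5]
    exact hfin
  have h5 := ae_lt_top h3 h4
  have h6 : ∀ᵐ y₀ : ℝ, ∫⁻ ρ, ENNReal.ofReal (en κ Γ a ℓ (lnf s b y₀) ρ) =
      (∫⁻ ρ, ENNReal.ofReal (en κ Γ a' ℓ (lnf s b y₀) ρ)) +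
        ∫⁻ ρ, ENNReal.ofReal (en κ Γ a a' (lnf s b y₀) ρ) := by
    filter_upwards [h5] with y₀ hy
    exact line_B hGR hGA hGE hκ hΓ h1 h2 (hm.comp (measurable_const.prodMk measurable_id))
      (fun t => hb1 _) hy.ne
  rw [lintegral_congr_ae h6, lintegral_add_left]
  exact (Measurable.ennreal_ofReal (en_meas hGR hκ Γ a' ℓ hm) : Measurable (Function.uncurry
      (fun y₀ ρ => ENNReal.ofReal (en κ Γ a' ℓ (lnf s b y₀) ρ)))).lintegral_prod_right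

/-! ### The iteration -/

private theorem half_two (x : ℝ≥0∞) : ENNReal.ofReal (1 / 2) * (x + x) = x := by
  rw [← two_mul, ← mul_assoc, ← ENNReal.ofReal_ofNat 2, ← ENNReal.ofReal_mul (by norm_num)]
  norm_num

private theorem iter (F D : ℕ → ℝ≥0∞) (c B : ℝ≥0∞)
    (h : ∀ T, F T + F T ≤ F (2 * T) + (c + c) * D T) (hB : ∀ T, F T ≤ B) (hB' : B ≠ ∞) (T : ℕ) :
    F T ≤ c * ∑' l : ℕ, ENNReal.ofReal ((1 / 2 : ℝ) ^ l) * D (2 ^ l * T) := by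
  have h1 : ∀ T, F T ≤ ENNReal.ofReal (1 / 2) * F (2 * T) + c * D T := by
    intro T
    have h2 := mul_le_mul_right (h T) (ENNReal.ofReal (1 / 2))
    rw [half_two, mul_add, ← mul_assoc (ENNReal.ofReal (1 / 2)) (c + c), half_two] at h2
    exact h2
  have h2 : ∀ n : ℕ, F T ≤ ENNReal.ofReal ((1 / 2 : ℝ) ^ n) * F (2 ^ n * T) +
      c * ∑ l ∈ Finset.range n, ENNReal.ofReal ((1 / 2 : ℝ) ^ l) * D (2 ^ l * T) := by
    intro n
    induction n with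
    | zero => simp
    | succ n ih =>
      refine ih.trans ?_
      have h3 := mul_le_mul_right (h1 (2 ^ n * T)) (ENNReal.ofReal ((1 / 2 : ℝ) ^ n))
      rw [Finset.sum_range_succ, mul_add]
      calc ENNReal.ofReal ((1 / 2 : ℝ) ^ n) * F (2 ^ n * T) +
            c * ∑ l ∈ Finset.range n, ENNReal.ofReal ((1 / 2 : ℝ) ^ l) * D (2 ^ l * T)
          ≤ ENNReal.ofReal ((1 / 2 : ℝ) ^ n) * (ENNReal.ofReal (1 / 2) * F (2 * (2 ^ n * T)) +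
              c * D (2 ^ n * T)) +
            c * ∑ l ∈ Finset.range n, ENNReal.ofReal ((1 / 2 : ℝ) ^ l) * D (2 ^ l * T) := by
              gcongr
        _ = ENNReal.ofReal ((1 / 2 : ℝ) ^ (n + 1)) * F (2 ^ (n + 1) * T) +
            (c * ∑ l ∈ Finset.range n, ENNReal.ofReal ((1 / 2 : ℝ) ^ l) * D (2 ^ l * T) +
            c * (ENNReal.ofReal ((1 / 2 : ℝ) ^ n) * D (2 ^ n * T))) := by
              rw [pow_succ (1 / 2 : ℝ) n, ENNReal.ofReal_mul (by positivity),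
                show 2 ^ (n + 1) * T = 2 * (2 ^ n * T) by ring]
              ring
  have h3 : ∀ n : ℕ, F T ≤ ENNReal.ofReal ((1 / 2 : ℝ) ^ n) * B +
      c * ∑' l : ℕ, ENNReal.ofReal ((1 / 2 : ℝ) ^ l) * D (2 ^ l * T) := by
    intro n
    refine (h2 n).trans (add_le_add (mul_le_mul_right (hB _) _) (mul_le_mul_right ?_ _))
    exact ENNReal.sum_le_tsum _
  have h4 : Tendsto (fun n : ℕ => ENNReal.ofReal ((1 / 2 : ℝ) ^ n) * B +
      c * ∑' l : ℕ, ENNReal.ofReal ((1 / 2 : ℝ) ^ l) * D (2 ^ l * T)) atTop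
      (𝓝 (0 * B + c * ∑' l : ℕ, ENNReal.ofReal ((1 / 2 : ℝ) ^ l) * D (2 ^ l * T))) := by
    apply Tendsto.add _ tendsto_const_nhds
    apply ENNReal.Tendsto.mul_const _ (Or.inr hB')
    have h5 := ENNReal.tendsto_ofReal (tendsto_pow_atTop_nhds_zero_of_lt_one
      (by norm_num : (0 : ℝ) ≤ 1 / 2) (by norm_num))
    rwa [ENNReal.ofReal_zero] at h5
  rw [zero_mul, zero_add] at h4
  exact ge_of_tendsto' h4 h3

theorem hLOW (hPT : Pool.Agent.Helper20.RG.StPT) (hGR : Pool.Agent.Helper61.P3.StGR)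
    (hGA : Pool.Agent.Helper61.P3.StGA) (_hGJ : Pool.Agent.Helper61.P3.StGJ)
    (hGE : Pool.Agent.Helper61.P3.StGE) : Pool.Agent.Helper61.P3.StLOW := by
  intro s κ Γ ℓ₀ T b hs hκ hΓ hb hfin
  have hbk : ∀ k, ∫⁻ x, ENNReal.ofReal (b k x) ≠ ∞ := ENNReal.ne_top_of_tsum_ne_top hfin
  refine iter (fun T : ℕ => ∑' k : ℤ, EN s κ Γ (k + ℓ₀ - (T : ℤ)) (k + ℓ₀) (b k))
    (fun T : ℕ => ∑' k : ℤ, ∫⁻ x, ENNReal.ofReal |b k x - b (k + (T : ℤ)) x|)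
    (ENNReal.ofReal Γ) (ENNReal.ofReal Γ * ∑' k : ℤ, ∫⁻ x, ENNReal.ofReal (b k x)) ?_ ?_
    (ENNReal.mul_ne_top ENNReal.ofReal_ne_top hfin) T
  · intro T
    have h1 : ∑' k : ℤ, EN s κ Γ (k + ℓ₀ - (T : ℤ)) (k + ℓ₀) (b k) ≤
        ∑' k : ℤ, EN s κ Γ (k + ℓ₀ - (T : ℤ)) (k + ℓ₀) (b (k + (T : ℤ))) +
        (ENNReal.ofReal Γ + ENNReal.ofReal Γ) *
          ∑' k : ℤ, ∫⁻ x, ENNReal.ofReal |b k x - b (k + (T : ℤ)) x| := by
      rw [← ENNReal.tsum_mul_left, ← ENNReal.tsum_add, ← ENNReal.ofReal_add hΓ hΓ, ← two_mul]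
      apply ENNReal.tsum_le_tsum
      intro k
      exact pl_A hPT hGA hGE s hκ hΓ (by omega) (hb k).1 (hb k).2 (hb _).1 (hb _).2
    have h2 : ∑' k : ℤ, EN s κ Γ (k + ℓ₀ - (T : ℤ)) (k + ℓ₀) (b (k + (T : ℤ))) =
        ∑' k : ℤ, EN s κ Γ (k + ℓ₀ - ((2 * T : ℕ) : ℤ)) (k + ℓ₀ - (T : ℤ)) (b k) := by
      rw [← (Equiv.addRight (T : ℤ)).tsum_eq
        (fun k : ℤ => EN s κ Γ (k + ℓ₀ - ((2 * T : ℕ) : ℤ)) (k + ℓ₀ - (T : ℤ)) (b k))]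
      apply tsum_congr
      intro k
      simp only [Equiv.coe_addRight]
      congr 1 <;> push_cast <;> ring
    have h3 : ∑' k : ℤ, EN s κ Γ (k + ℓ₀ - ((2 * T : ℕ) : ℤ)) (k + ℓ₀) (b k) =
        ∑' k : ℤ, EN s κ Γ (k + ℓ₀ - (T : ℤ)) (k + ℓ₀) (b k) +
        ∑' k : ℤ, EN s κ Γ (k + ℓ₀ - ((2 * T : ℕ) : ℤ)) (k + ℓ₀ - (T : ℤ)) (b k) := by
      rw [← ENNReal.tsum_add]
      apply tsum_congr
      intro k
      exact pl_B hPT hGR hGA hGE s hκ hΓ (by push_cast; omega) (by omega) (hb k).1 (hb k).2 (hbk k)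
    rw [h3, ← h2, add_assoc]
    exact add_le_add_right h1 _
  · intro T
    rw [← ENNReal.tsum_mul_left]
    apply ENNReal.tsum_le_tsum
    intro k
    exact pl_C hPT hGA hGE s hκ hΓ (by omega) (hb k).1 (hb k).2

end Pool.Agent.Helper6.P3
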